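import Pool.Agent.H36.ENR.Stmts2

/-! Board enr (MP_d15c96_al), row GPS: `Good p (PSL(2,q))`, assembly. -/

set_option autoImplicit false

namespace Pool.ENR

open Pool.Agent.H81.ENG Pool.Agent.H55.NEU

theorem gps_thm (h1 : GP1Stmt) (h2 : GP2Stmt) (h3 : GP3Stmt) : GPSStmt := by
  intro F _ _ p hp hq h
  haveI : Fintype F := Fintype.ofFinite F
  obtain ⟨r, hr⟩ := CharP.exists F
  haveI hrf : Fact r.Prime := ⟨CharP.char_is_prime F r⟩
  haveI hpf : Fact p.Prime := ⟨hp⟩
  obtain ⟨n, _, hcard⟩ := FiniteField.card F r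
  have hc : Nat.card F = r ^ (n : ℕ) := by
    rw [Nat.card_eq_fintype_card, hcard]
  by_cases hpr : p = r
  · subst hpr
    exact h1 F p n n.pos hc hq
  · have hp2 : p ≠ 2 := by
      intro hp2
      rcases h with h | h
      · exact h hp2
      · have h4 : r ∣ 2 := by
          rw [← CharP.cast_eq_zero_iff F r 2]
          exact_mod_cast h
        have h5 := (Nat.prime_dvd_prime_iff_eq hrf.out Nat.prime_two).1 h4
        exact hpr (hp2.trans h5.symm)
    by_cases hd : p ∣ Nat.card F + 1
    · exact h3 F p r n hp2 hpr n.pos hc hq hd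
    · exact h2 F p r n hp hpr n.pos hc hd

end Pool.ENR
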