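import Pool.Agent.H29.ENR.Stmts

/-! Board enr, row REA: the reduction theorem in the real case. -/

set_option autoImplicit false

namespace Pool.ENR

open Pool.Agent.H81.ENG

theorem rea_thm : REAStmt := by
  intro T _ _ p c j z g hp hout hexp hz hgz hj hdiv σ N m h1 h2
  right
  left
  obtain ⟨t₀, rfl⟩ := hout σ ⟨N, h1⟩
  -- the `p`-part of `t₀`
  obtain ⟨a, k, hk, hn⟩ : ∃ a k : ℕ, ¬ p ∣ k ∧ orderOf t₀ = p ^ a * k := by
    obtain ⟨a, k, hk, hn⟩ := Nat.exists_eq_pow_mul_and_not_dvd (n := orderOf t₀)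
      (orderOf_pos t₀).ne' p hp.ne_one
    exact ⟨a, k, hk, hn⟩
  have hco : Nat.Coprime k (p ^ N) :=
    Nat.Coprime.pow_right N (Nat.coprime_comm.1 ((Nat.Prime.coprime_iff_not_dvd hp).2 hk))
  obtain ⟨e, he1, he2⟩ := Nat.chineseRemainder hco 0 1
  have hke : k ∣ e := (Nat.modEq_zero_iff_dvd).1 he1
  obtain ⟨t₁, ht₁⟩ : ∃ t₁ : T, t₁ = t₀ ^ e := ⟨_, rfl⟩
  have hσ : MulAut.conj t₁ = MulAut.conj t₀ := by
    rw [ht₁, map_pow]
    conv_rhs => rw [← pow_one (MulAut.conj t₀)]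
    rw [pow_eq_pow_iff_modEq]
    exact he2.of_dvd (orderOf_dvd_of_pow_eq_one h1)
  have ht₁a : t₁ ^ (p ^ a) = 1 := by
    rw [ht₁, ← pow_mul]
    apply orderOf_dvd_iff_pow_eq_one.1
    rw [hn, mul_comm]
    exact Nat.mul_dvd_mul hke dvd_rfl
  have ht₁c : t₁ ^ (p ^ c) = 1 := hexp t₁ a ht₁a
  have hmc : m + 1 ≤ c := by
    by_contra hcon
    push Not at hcon
    apply h2
    rw [← hσ, ← map_pow]
    have : t₁ ^ (p ^ m) = 1 := by
      obtain ⟨i, hi⟩ : ∃ i, m = c + i := ⟨m - c, by omega⟩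
      rw [hi, pow_add, pow_mul, ht₁c, one_pow]
    rw [this, map_one]
  refine ⟨z⁻¹ * t₁⁻¹, c, hmc, ?_, fun d hd => (pow_dvd_pow p hmc).trans (hdiv d hd)⟩
  have hconj : MulAut.conj (z⁻¹ * t₁⁻¹) * MulAut.conj t₀ = MulAut.conj z⁻¹ := by
    rw [← hσ, ← map_mul, inv_mul_cancel_right]
  rw [hconj]
  have hzc : z ^ (p ^ c) = 1 := by rw [← hz]; exact pow_orderOf_eq_one z
  have hpc : 1 ≤ p ^ c := Nat.one_le_pow _ _ hp.pos
  refine ⟨z, g, 1, j, j + p ^ c - 1, hz, ?_, Nat.ModEq.refl 1, hgz, hj, ?_, ?_⟩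
  · rw [MulAut.conj_apply, inv_inv, inv_mul_cancel, one_mul, pow_one]
  · rw [MulAut.conj_apply, inv_inv]
    have hu : z ^ (j + p ^ c - 1) = z⁻¹ * z ^ j := by
      have h3 : z * z ^ (j + p ^ c - 1) = z ^ j := by
        rw [← pow_succ', Nat.sub_add_cancel (by omega), pow_add, hzc, mul_one]
      rw [← h3, inv_mul_cancel_left]
    rw [hu, ← hgz]
    group
  · intro hd
    apply hj
    have h3 : j + p ^ c ≡ 1 [MOD p] := by
      have h4 : j + p ^ c - 1 + 1 ≡ 0 + 1 [MOD p] :=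
        Nat.ModEq.add_right 1 ((Nat.modEq_zero_iff_dvd).2 hd)
      rwa [Nat.sub_add_cancel (by omega), zero_add] at h4
    have h5 : j + p ^ c ≡ j + 0 [MOD p] :=
      Nat.ModEq.add_left j ((Nat.modEq_zero_iff_dvd).2 (dvd_pow_self p (by omega)))
    exact (h5.symm.trans h3)

end Pool.ENR
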