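import Pool.Agent.H29.ENR.Stmts11

/-! Board enr (MP_d15c96_al), row SQA. -/

set_option autoImplicit false

namespace Pool.ENR

open Pool.Agent.H81.ENG Pool.Agent.H55.NEU

open scoped Pointwise in
theorem sqa_conj {F : Type} [Field F] [Finite F] {r f : ℕ} [Fact r.Prime] (hf : 0 < f)
    (hq : Nat.card F = r ^ f) (σ : MulAut (PS F)) (P : Sylow r (PS F))
    (hP : ∀ x, x ∈ P ↔ σ x ∈ P) :
    ∃ h : PS F, ∀ x, x ∈ UU F ↔ (MulAut.conj h * σ * (MulAut.conj h)⁻¹) x ∈ UU F := by
  obtain ⟨U, hU⟩ := sylow_of_card hf hq (UU F) card_UU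
  obtain ⟨h, hh⟩ := MulAction.exists_smul_eq (PS F) P U
  refine ⟨h, ?_⟩
  have hmem : ∀ x, x ∈ UU F ↔ h⁻¹ * x * h ∈ P := by
    intro x
    rw [← hU, ← hh, Sylow.coe_subgroup_smul, Subgroup.mem_pointwise_smul_iff_inv_smul_mem]
    have e : (MulAut.conj h)⁻¹ • x = h⁻¹ * x * h := by
      rw [MulAut.smul_def, MulAut.conj_inv_apply]
    rw [e]
    rfl
  intro x
  have e : h⁻¹ * ((MulAut.conj h * σ * (MulAut.conj h)⁻¹) x) * h = σ (h⁻¹ * x * h) := by
    rw [MulAut.mul_apply, MulAut.mul_apply, MulAut.conj_inv_apply, MulAut.conj_apply]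
    group
  rw [hmem, hmem, e, ← hP]

theorem sqa_thm (hPB1 : PB1Stmt) (hSE1 : SE1Stmt) (hSCJ : SCJStmt) (hSEC : SECStmt)
    (hINV : INVStmt) : SQAStmt := by
  intro F _ _ h2 hsimp hnab σ N hσ
  haveI : Fintype F := Fintype.ofFinite F
  obtain ⟨r, hr⟩ := CharP.exists F
  haveI hrf : Fact r.Prime := ⟨CharP.char_is_prime F r⟩
  obtain ⟨n, _, hcard⟩ := FiniteField.card F r
  have hc : Nat.card F = r ^ (n : ℕ) := by
    rw [Nat.card_eq_fintype_card, hcard]
  have hr2 : r ≠ 2 := by
    intro h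
    apply h2
    have h3 : ((2 : ℕ) : F) = 0 := by
      rw [CharP.cast_eq_zero_iff F r 2, h]
    exact_mod_cast h3
  obtain ⟨t, R, M, hR, hM⟩ := hPB1 (PS F) 2 r N σ Nat.prime_two hr2 hσ
  by_cases h1 : MulAut.conj t * σ = 1
  · have hs2 : (0 : F) * 0 - (-1) * 1 = 1 := by ring
    let s : PS F := pr (mk2 0 (-1) 1 0 hs2)
    have hsne : s ≠ 1 := by
      intro h
      have h3 : pr (1 : SL2 F) = pr (mk2 0 (-1) 1 0 hs2) := by
        rw [map_one]
        exact h.symm
      obtain ⟨a, ha, hh⟩ := pr_eq_iff.1 h3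
      have h4 : (0 : F) = a * 1 := hh 0 0
      rw [mul_one] at h4
      rw [← h4, zero_mul] at ha
      exact zero_ne_one ha
    have hss : s * s = 1 := by
      have h3 : s * s = pr (mk2 0 (-1) 1 0 hs2 * mk2 0 (-1) 1 0 hs2) := (map_mul _ _ _).symm
      rw [h3, mk2_mul, ← map_one (pr (F := F)), eq_comm, pr_eq_iff]
      refine ⟨-1, by ring, ?_⟩
      intro i j
      fin_cases i <;> fin_cases j
      · show (0 : F) * 0 + (-1) * 1 = (-1) * 1
        ring
      · show (0 : F) * (-1) + (-1) * 0 = (-1) * 0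
        ring
      · show (1 : F) * 0 + 0 * 1 = (-1) * 0
        ring
      · show (1 : F) * (-1) + 0 * 0 = (-1) * 1
        ring
    have hconj : MulAut.conj s ≠ 1 := by
      intro h
      have hcen : s ∈ Subgroup.center (PS F) := by
        rw [Subgroup.mem_center_iff]
        intro g
        have h3 : MulAut.conj s g = g := by rw [h]; rfl
        rw [MulAut.conj_apply] at h3
        rw [eq_comm]
        exact mul_inv_eq_iff_eq_mul.1 h3
      rcases Subgroup.Normal.eq_bot_or_eq_top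
        (inferInstance : (Subgroup.center (PS F)).Normal) with h4 | h4
      · rw [h4, Subgroup.mem_bot] at hcen
        exact hsne hcen
      · apply hnab
        intro a c
        have h5 : a ∈ Subgroup.center (PS F) := by rw [h4]; trivial
        exact (Subgroup.mem_center_iff.1 h5 c).symm
    have hsq : (MulAut.conj s) ^ 2 = 1 := by
      rw [← map_pow, pow_two, hss, map_one]
    have hsec := hINV (PS F) (MulAut.conj s) hsimp hnab hsq hconj
    have he : MulAut.conj (s * t) * σ = MulAut.conj s := by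
      rw [map_mul, mul_assoc, h1, mul_one]
    refine ⟨s * t, ?_⟩
    rw [he]
    intro b _ d hd
    exact hSEC (PS F) 2 0 1 (MulAut.conj s) Nat.prime_two (by rw [pow_one, hsq]) hsec b d hd
  · refine ⟨t, ?_⟩
    obtain ⟨h, hh⟩ := sqa_conj n.pos hc (MulAut.conj t * σ) R hR
    have hsec : Sec 2 0 (MulAut.conj t * σ) := by
      refine hSCJ (PS F) 2 0 _ (MulAut.conj h) ?_
      refine hSE1 F 2 r n M 0 _ Nat.prime_two (fun h => hr2 h.symm) n.pos hc ?_ ?_ hh
      · rw [conj_pow, hM, mul_one, mul_inv_cancel]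
      · intro h3
        rw [pow_zero, pow_one] at h3
        apply h1
        have h4 := mul_inv_eq_one.1 h3
        exact mul_left_cancel (h4.trans (mul_one _).symm)
    intro b _ d hd
    exact hSEC (PS F) 2 0 M (MulAut.conj t * σ) Nat.prime_two hM hsec b d hd

end Pool.ENR
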